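import Mathlib

/-!
Least deficient multipliers making an integer non-deficient, and almost perfect numbers.
-/

namespace H530AP

open Finset
open scoped Pointwise

/-- The sum of the positive divisors of `m`. -/
def sg (m : ℕ) : ℕ := ∑ d ∈ m.divisors, d

/-- `k` is a deficient positive integer for which `k * n` is non-deficient. -/
def P (n k : ℕ) : Prop := 1 ≤ k ∧ sg k < 2 * k ∧ 2 * (k * n) ≤ sg (k * n)

/-- The least deficient positive integer `k` for which `k * n` is non-deficient. -/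
noncomputable def a (n : ℕ) : ℕ := sInf {k : ℕ | 1 ≤ k ∧ sg k < 2 * k ∧ 2 * (k * n) ≤ sg (k * n)}

theorem sg_mul_le (m n : ℕ) : sg (m * n) ≤ sg m * sg n := by
  unfold sg
  rw [Nat.divisors_mul, Finset.sum_mul_sum, ← Finset.sum_product']
  have h : (m.divisors * n.divisors : Finset ℕ)
      = (m.divisors ×ˢ n.divisors).image (fun x => x.1 * x.2) := by
    ext x
    simp only [Finset.mem_mul, Finset.mem_image, Finset.mem_product, Prod.exists]
    constructor
    · rintro ⟨y, hy, z, hz, rfl⟩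
      exact ⟨y, z, ⟨hy, hz⟩, rfl⟩
    · rintro ⟨y, z, ⟨hy, hz⟩, rfl⟩
      exact ⟨y, hy, z, hz, rfl⟩
  rw [h]
  have key : ∀ (s : Finset (ℕ × ℕ)) (f : ℕ × ℕ → ℕ), ∑ d ∈ s.image f, d ≤ ∑ x ∈ s, f x := by
    intro s f
    classical
    induction s using Finset.induction_on with
    | empty => simp
    | insert x s hx ih =>
      rw [Finset.image_insert, Finset.sum_insert hx]
      by_cases hm : f x ∈ s.image f
      · rw [Finset.insert_eq_of_mem hm]
        omega
      · rw [Finset.sum_insert hm]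
        omega
  exact key _ _

theorem sg_coprime {m n : ℕ} (h : m.Coprime n) : sg (m * n) = sg m * sg n :=
  h.sum_divisors_mul

theorem sg_prime {p : ℕ} (hp : p.Prime) : sg p = p + 1 := by
  unfold sg
  rw [hp.sum_divisors (f := fun d => d)]

theorem sg_two_pow (j : ℕ) : sg (2 ^ j) + 1 = 2 ^ (j + 1) := by
  unfold sg
  rw [Nat.sum_divisors_prime_pow Nat.prime_two]
  induction j with
  | zero => simp
  | succ j ih =>
    rw [Finset.sum_range_succ]
    rw [pow_succ 2 (j + 1)]
    omega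

theorem le_sg {n : ℕ} (hn : 1 ≤ n) : n ≤ sg n :=
  Finset.single_le_sum (f := fun d => d) (fun _ _ => Nat.zero_le _)
    (Nat.mem_divisors_self n (by omega))

theorem succ_le_sg {n : ℕ} (hn : 2 ≤ n) : n + 1 ≤ sg n := by
  unfold sg
  have h : ({n, 1} : Finset ℕ) ⊆ n.divisors := by
    intro x hx
    rw [Finset.mem_insert, Finset.mem_singleton] at hx
    rcases hx with rfl | rfl
    · exact Nat.mem_divisors_self _ (by omega)
    · exact Nat.one_mem_divisors.2 (by omega)
  have h2 := Finset.sum_le_sum_of_subset (f := fun d => d) h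
  rw [Finset.sum_pair (by omega)] at h2
  exact h2

/-- The key estimate: a deficient multiplier below the least good power of two is almost
perfect. -/
theorem key {n k T : ℕ} (hT : T * sg n < T * n + sg n) (hk1 : sg k < 2 * k) (hkT : k < T)
    (hk2 : 2 * (k * n) ≤ sg (k * n)) : sg k + 1 = 2 * k := by
  by_contra hne
  have h1 : sg k + 2 ≤ 2 * k := by omega
  have h2 : 2 * (k * n) ≤ sg k * sg n := hk2.trans (sg_mul_le k n)
  have h3 : sg k * sg n + 2 * sg n ≤ 2 * k * sg n := by
    have := Nat.mul_le_mul_right (sg n) h1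
    rw [add_mul] at this
    exact this
  have h4 : k * n + sg n ≤ k * sg n := by
    have e : 2 * k * sg n = 2 * (k * sg n) := by ring
    omega
  -- T (S - n) < S ≤ k (S - n)
  have h5 : (T : ℤ) * ((sg n : ℤ) - n) < sg n := by
    have : ((T * sg n : ℕ) : ℤ) < ((T * n + sg n : ℕ) : ℤ) := by exact_mod_cast hT
    push_cast at this
    linarith
  have h6 : (sg n : ℤ) ≤ (k : ℤ) * ((sg n : ℤ) - n) := by
    have : ((k * n + sg n : ℕ) : ℤ) ≤ ((k * sg n : ℕ) : ℤ) := by exact_mod_cast h4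
    push_cast at this
    linarith
  have h7 : (0 : ℤ) ≤ (sg n : ℤ) - n := by
    by_contra hneg
    have h8 : (sg n : ℤ) - n < 0 := by omega
    have h9 : (k : ℤ) * ((sg n : ℤ) - n) ≤ 0 :=
      mul_nonpos_of_nonneg_of_nonpos (by positivity) h8.le
    have h10 : (0 : ℤ) ≤ (sg n : ℤ) := by positivity
    have h11 : (sg n : ℤ) = 0 := by omega
    rw [h11] at h5
    rcases Nat.eq_zero_or_pos k with hk0 | hk0
    · subst hk0
      simp at hk1
    · have h12 : (k : ℤ) * ((sg n : ℤ) - n) < 0 :=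
        mul_neg_of_pos_of_neg (by exact_mod_cast hk0) h8
      omega
  have h8 : (k : ℤ) < T := by exact_mod_cast hkT
  nlinarith

theorem P_iff_mem (n k : ℕ) :
    P n k ↔ k ∈ {k : ℕ | 1 ≤ k ∧ sg k < 2 * k ∧ 2 * (k * n) ≤ sg (k * n)} := Iff.rfl

theorem a_le {n k : ℕ} (h : P n k) : a n ≤ k := Nat.sInf_le h

theorem a_eq_of {n k : ℕ} (h : P n k) (h' : ∀ k', P n k' → k ≤ k') : a n = k := by
  apply le_antisymm (a_le h)
  have h1 : P n (a n) :=
    Nat.sInf_mem (s := {k : ℕ | 1 ≤ k ∧ sg k < 2 * k ∧ 2 * (k * n) ≤ sg (k * n)}) ⟨k, h⟩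
  exact h' _ h1

theorem P_two_pow {n : ℕ} (hn : ¬ 2 ∣ n) (j : ℕ) :
    P n (2 ^ j) ↔ 2 ^ (j + 1) * n + sg n ≤ 2 ^ (j + 1) * sg n := by
  have h1 := sg_two_pow j
  have h2 : 0 < 2 ^ j := by positivity
  have hcop : (2 ^ j).Coprime n :=
    Nat.Coprime.pow_left _ ((Nat.Prime.coprime_iff_not_dvd Nat.prime_two).2 hn)
  have h3 : sg (2 ^ j * n) + sg n = 2 ^ (j + 1) * sg n := by
    rw [sg_coprime hcop, ← h1]
    ring
  have h4 : 2 * (2 ^ j * n) = 2 ^ (j + 1) * n := by ring
  constructor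
  · rintro ⟨_, _, h⟩
    omega
  · intro h
    refine ⟨h2, ?_, ?_⟩
    · rw [pow_succ] at h1
      omega
    · omega

theorem exists_P {n : ℕ} (hn2 : 2 ≤ n) (hn : ¬ 2 ∣ n) : ∃ j, P n (2 ^ j) := by
  refine ⟨sg n, ?_⟩
  rw [P_two_pow hn]
  have h1 := succ_le_sg hn2
  have h2 : sg n ≤ 2 ^ (sg n + 1) :=
    (Nat.lt_two_pow_self (n := sg n)).le.trans (Nat.pow_le_pow_right (by norm_num) (by omega))
  calc 2 ^ (sg n + 1) * n + sg n ≤ 2 ^ (sg n + 1) * n + 2 ^ (sg n + 1) := by omega
    _ = 2 ^ (sg n + 1) * (n + 1) := by ring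
    _ ≤ 2 ^ (sg n + 1) * sg n := Nat.mul_le_mul_left _ h1

theorem sg_even {n : ℕ} (hn : 1 ≤ n) (h : 2 ∣ n) : 3 * n ≤ 2 * sg n := by
  obtain ⟨m, rfl⟩ := h
  unfold sg
  have h : ({2 * m, m} : Finset ℕ) ⊆ (2 * m).divisors := by
    intro x hx
    rw [Finset.mem_insert, Finset.mem_singleton] at hx
    rcases hx with rfl | rfl
    · exact Nat.mem_divisors_self _ (by omega)
    · exact Nat.mem_divisors.2 ⟨Dvd.intro_left 2 rfl, by omega⟩
  have h2 := Finset.sum_le_sum_of_subset (f := fun d => d) h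
  rw [Finset.sum_pair (by omega)] at h2
  omega

theorem sg_six {n : ℕ} (hn : 1 ≤ n) (h : 6 ∣ n) : 2 * n ≤ sg n := by
  obtain ⟨m, rfl⟩ := h
  unfold sg
  have h : ({6 * m, 3 * m, 2 * m, m} : Finset ℕ) ⊆ (6 * m).divisors := by
    intro x hx
    simp only [Finset.mem_insert, Finset.mem_singleton] at hx
    rw [Nat.mem_divisors]
    refine ⟨?_, by omega⟩
    rcases hx with rfl | rfl | rfl | rfl
    · exact dvd_rfl
    · exact ⟨2, by ring⟩
    · exact ⟨3, by ring⟩
    · exact ⟨6, by ring⟩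
  have h2 := Finset.sum_le_sum_of_subset (f := fun d => d) h
  rw [Finset.sum_insert, Finset.sum_insert, Finset.sum_insert, Finset.sum_singleton] at h2
  · omega
  · simp only [Finset.mem_singleton]
    omega
  · simp only [Finset.mem_insert, Finset.mem_singleton]
    omega
  · simp only [Finset.mem_insert, Finset.mem_singleton]
    omega

theorem sg_one : sg 1 = 1 := by decide

theorem sg_three : sg 3 = 4 := by decide

/-- even numbers -/
theorem even_P {n : ℕ} (hn : 2 ≤ n) (h : 2 ∣ n) : P n 1 ∨ P n 3 := by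
  by_cases h3 : 3 ∣ n
  · left
    have h6 : 6 ∣ n := by
      have := Nat.Coprime.mul_dvd_of_dvd_of_dvd (by norm_num : Nat.Coprime 2 3) h h3
      simpa using this
    have := sg_six (by omega) h6
    exact ⟨le_rfl, by rw [sg_one]; omega, by rw [one_mul]; exact this⟩
  · right
    have hcop : Nat.Coprime 3 n := (Nat.Prime.coprime_iff_not_dvd Nat.prime_three).2 h3
    have := sg_even (by omega) h
    refine ⟨by norm_num, by rw [sg_three]; omega, ?_⟩
    rw [sg_coprime hcop, sg_three]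
    omega

theorem P_a {n : ℕ} (hn : 2 ≤ n) : P n (a n) := by
  have : ∃ k, P n k := by
    by_cases h : 2 ∣ n
    · rcases even_P hn h with h | h
      · exact ⟨_, h⟩
      · exact ⟨_, h⟩
    · obtain ⟨j, hj⟩ := exists_P hn h
      exact ⟨_, hj⟩
  exact Nat.sInf_mem (s := {k : ℕ | 1 ≤ k ∧ sg k < 2 * k ∧ 2 * (k * n) ≤ sg (k * n)}) this

/-- For odd `n` the value is almost perfect. -/
theorem a_odd {n : ℕ} (hn : 2 ≤ n) (h : ¬ 2 ∣ n) : sg (a n) + 1 = 2 * a n := by
  classical
  have hex := exists_P hn h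
  set j := Nat.find hex with hj
  have hPj : P n (2 ^ j) := Nat.find_spec hex
  have hle : a n ≤ 2 ^ j := a_le hPj
  have hPa := P_a hn
  rcases Nat.lt_or_ge (a n) (2 ^ j) with hlt | hge
  · have hj1 : j ≠ 0 := by
      intro h0
      rw [h0] at hlt
      have := hPa.1
      simp at hlt
      omega
    have hnot : ¬ P n (2 ^ (j - 1)) := Nat.find_min hex (by omega)
    rw [P_two_pow h, show j - 1 + 1 = j by omega] at hnot
    exact key (T := 2 ^ j) (by omega) hPa.2.1 hlt hPa.2.2
  · have he : a n = 2 ^ j := le_antisymm hle hge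
    rw [he, sg_two_pow j]
    ring

/-- The values of `a`. -/
theorem a_values {n : ℕ} (hn : 2 ≤ n) : a n = 3 ∨ sg (a n) + 1 = 2 * a n := by
  by_cases h : 2 ∣ n
  · have h1 : a n ≤ 3 := by
      rcases even_P hn h with h | h
      · exact (a_le h).trans (by norm_num)
      · exact a_le h
    have h2 := (P_a hn).1
    have h3 : a n = 1 ∨ a n = 2 ∨ a n = 3 := by omega
    rcases h3 with h3 | h3 | h3
    · right
      rw [h3, sg_one]
    · right
      rw [h3]
      decide
    · exact Or.inl h3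
  · exact Or.inr (a_odd hn h)

end H530AP
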