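import Pool.Agent.helper530_ap.Core

/-!
Integers coprime to `k` whose abundancy index lies in a prescribed interval.
-/

namespace H530AP

open Finset

/-- the primes in `(N, m]` -/
def F (N m : ℕ) : Finset ℕ := (Finset.Ioc N m).filter Nat.Prime

def Nn (N m : ℕ) : ℕ := ∏ p ∈ F N m, p

def Ss (N m : ℕ) : ℕ := ∏ p ∈ F N m, (p + 1)

theorem F_prime {N m p : ℕ} (h : p ∈ F N m) : p.Prime := (Finset.mem_filter.1 h).2

theorem F_gt {N m p : ℕ} (h : p ∈ F N m) : N < p := (Finset.mem_Ioc.1 (Finset.mem_filter.1 h).1).1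

theorem Nn_pos (N m : ℕ) : 0 < Nn N m := Finset.prod_pos fun _ hp => (F_prime hp).pos

theorem sg_Nn (N m : ℕ) : sg (Nn N m) = Ss N m := by
  have h1 : ∀ m, sg m = ArithmeticFunction.sigma 1 m := by
    intro m
    rw [ArithmeticFunction.sigma_one_apply]
    rfl
  rw [h1, Nn, ArithmeticFunction.isMultiplicative_sigma.map_prod_of_prime _ fun p hp => F_prime hp]
  unfold Ss
  refine Finset.prod_congr rfl fun p hp => ?_
  rw [← h1, sg_prime (F_prime hp)]

theorem prod_ge (s : Finset ℕ) (hs : ∀ p ∈ s, 0 < p) :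
    ((∏ p ∈ s, p : ℕ) : ℝ) * (1 + ∑ p ∈ s, (1 : ℝ) / p) ≤ ((∏ p ∈ s, (p + 1) : ℕ) : ℝ) := by
  classical
  induction s using Finset.induction_on with
  | empty => simp
  | insert q s hq ih =>
    rw [Finset.prod_insert hq, Finset.prod_insert hq, Finset.sum_insert hq]
    have hq0 : (0 : ℝ) < q := by exact_mod_cast hs q (Finset.mem_insert_self _ _)
    have ih' := ih fun p hp => hs p (Finset.mem_insert_of_mem hp)
    have hN : (0 : ℝ) ≤ ((∏ p ∈ s, p : ℕ) : ℝ) := by positivity
    have hs0 : (0 : ℝ) ≤ ∑ p ∈ s, (1 : ℝ) / p := Finset.sum_nonneg fun _ _ => by positivity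
    push_cast at ih' hN ⊢
    set A := (∏ p ∈ s, (p : ℝ)) with hA
    set B := (∏ p ∈ s, ((p : ℝ) + 1)) with hB
    set S := ∑ p ∈ s, (1 : ℝ) / p with hS
    have h1 : (q : ℝ) * A * (1 + (1 / q + S)) = A * (q * (1 + S) + 1) := by
      field_simp
      ring
    rw [h1]
    have h2 : A * (q * (1 + S) + 1) ≤ (q + 1) * (A * (1 + S)) := by
      have : 0 ≤ A * S := mul_nonneg hN hs0
      nlinarith
    have h3 : ((q : ℝ) + 1) * (A * (1 + S)) ≤ (q + 1) * B :=
      mul_le_mul_of_nonneg_left ih' (by positivity)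
    exact h2.trans h3

/-- The partial products are unbounded. -/
theorem exists_big (N k : ℕ) (hk : 1 ≤ k) : ∃ m, 2 * k * Nn N m + Ss N m ≤ 2 * k * Ss N m := by
  by_contra hcon
  push Not at hcon
  have h1 : ∀ m, Ss N m < 2 * Nn N m := by
    intro m
    have h := hcon m
    by_contra hge
    push Not at hge
    obtain ⟨j, rfl⟩ := Nat.exists_eq_add_of_le hk
    have h2 : 2 * (1 + j) * Nn N m ≤ (1 + j) * Ss N m := by
      calc 2 * (1 + j) * Nn N m = (1 + j) * (2 * Nn N m) := by ring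
        _ ≤ (1 + j) * Ss N m := Nat.mul_le_mul_left _ hge
    have h3 : 2 * (1 + j) * Ss N m = (1 + j) * Ss N m + (Ss N m + j * Ss N m) := by ring
    have h4 : 0 ≤ j * Ss N m := Nat.zero_le _
    omega
  have h2 : ∀ m, ∑ p ∈ F N m, (1 : ℝ) / p ≤ 1 := by
    intro m
    have h3 := prod_ge (F N m) fun p hp => (F_prime hp).pos
    have h4 : ((Ss N m : ℕ) : ℝ) ≤ 2 * ((Nn N m : ℕ) : ℝ) := by exact_mod_cast (h1 m).le
    have h5 : (0 : ℝ) < ((Nn N m : ℕ) : ℝ) := by exact_mod_cast Nn_pos N m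
    have h6 : ((Nn N m : ℕ) : ℝ) * (1 + ∑ p ∈ F N m, (1 : ℝ) / p) ≤ 2 * ((Nn N m : ℕ) : ℝ) :=
      h3.trans h4
    have h7 : (1 + ∑ p ∈ F N m, (1 : ℝ) / p) ≤ 2 := by
      by_contra h8
      push Not at h8
      nlinarith
    linarith
  apply not_summable_one_div_on_primes
  refine summable_of_sum_range_le (c := ((N + 1 : ℕ) : ℝ) + 1) ?_ ?_
  · intro n
    exact Set.indicator_nonneg (fun p _ => by positivity) _
  · intro n
    have hle1 : ∀ i : ℕ, Set.indicator {p : ℕ | p.Prime} (fun n : ℕ => (1 : ℝ) / n) i ≤ 1 := by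
      intro i
      by_cases hi : i.Prime
      · rw [Set.indicator_of_mem (show i ∈ {p : ℕ | p.Prime} from hi)]
        have : (1 : ℝ) ≤ i := by exact_mod_cast hi.one_le
        exact div_le_one_of_le₀ this (by positivity)
      · rw [Set.indicator_of_notMem (show i ∉ {p : ℕ | p.Prime} from hi)]
        norm_num
    have hnn : ∀ i : ℕ, 0 ≤ Set.indicator {p : ℕ | p.Prime} (fun n : ℕ => (1 : ℝ) / n) i :=
      fun i => Set.indicator_nonneg (fun p _ => by positivity) _
    have hsub : Finset.range n ⊆ Finset.range (N + 1) ∪ Finset.Ioc N n := by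
      intro i hi
      rw [Finset.mem_range] at hi
      rw [Finset.mem_union, Finset.mem_range, Finset.mem_Ioc]
      omega
    calc ∑ i ∈ Finset.range n, Set.indicator {p : ℕ | p.Prime} (fun n : ℕ => (1 : ℝ) / n) i
        ≤ ∑ i ∈ Finset.range (N + 1) ∪ Finset.Ioc N n,
            Set.indicator {p : ℕ | p.Prime} (fun n : ℕ => (1 : ℝ) / n) i :=
          Finset.sum_le_sum_of_subset_of_nonneg hsub fun i _ _ => hnn i
      _ ≤ ∑ i ∈ Finset.range (N + 1), Set.indicator {p : ℕ | p.Prime} (fun n : ℕ => (1 : ℝ) / n) i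
          + ∑ i ∈ Finset.Ioc N n, Set.indicator {p : ℕ | p.Prime} (fun n : ℕ => (1 : ℝ) / n) i :=
          by
            rw [← Finset.sum_union_inter]
            exact le_add_of_nonneg_right (Finset.sum_nonneg fun i _ => hnn i)
      _ ≤ ((N + 1 : ℕ) : ℝ) + 1 := by
          apply add_le_add
          · calc ∑ i ∈ Finset.range (N + 1),
                Set.indicator {p : ℕ | p.Prime} (fun n : ℕ => (1 : ℝ) / n) i
                ≤ ∑ _i ∈ Finset.range (N + 1), (1 : ℝ) := Finset.sum_le_sum fun i _ => hle1 i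
              _ = ((N + 1 : ℕ) : ℝ) := by simp
          · have h3 : ∑ i ∈ Finset.Ioc N n,
                Set.indicator {p : ℕ | p.Prime} (fun n : ℕ => (1 : ℝ) / n) i
                = ∑ p ∈ F N n, (1 : ℝ) / p := by
              unfold F
              rw [Finset.sum_filter]
              refine Finset.sum_congr rfl fun i _ => ?_
              by_cases hi : i.Prime
              · rw [Set.indicator_of_mem (show i ∈ {p : ℕ | p.Prime} from hi), if_pos hi]
              · rw [Set.indicator_of_notMem (show i ∉ {p : ℕ | p.Prime} from hi), if_neg hi]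
            rw [h3]
            exact h2 n

theorem F_succ (N m : ℕ) (h : N ≤ m) :
    F N (m + 1) = if (m + 1).Prime then insert (m + 1) (F N m) else F N m := by
  ext x
  unfold F
  split_ifs with hp
  · simp only [Finset.mem_filter, Finset.mem_Ioc, Finset.mem_insert]
    constructor
    · rintro ⟨⟨h1, h2⟩, h3⟩
      by_cases hx : x = m + 1
      · exact Or.inl hx
      · exact Or.inr ⟨⟨h1, by omega⟩, h3⟩
    · rintro (rfl | ⟨⟨h1, h2⟩, h3⟩)
      · exact ⟨⟨by omega, le_rfl⟩, hp⟩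
      · exact ⟨⟨h1, by omega⟩, h3⟩
  · simp only [Finset.mem_filter, Finset.mem_Ioc]
    constructor
    · rintro ⟨⟨h1, h2⟩, h3⟩
      refine ⟨⟨h1, ?_⟩, h3⟩
      by_contra h4
      have : x = m + 1 := by omega
      exact hp (this ▸ h3)
    · rintro ⟨⟨h1, h2⟩, h3⟩
      exact ⟨⟨h1, by omega⟩, h3⟩

theorem F_self (N : ℕ) : F N N = ∅ := by
  unfold F
  simp

theorem F_small {N m : ℕ} (h : m ≤ N) : F N m = ∅ := by
  unfold F
  rw [Finset.Ioc_eq_empty (by omega)]
  simp

/-- An integer coprime to `k` whose abundancy index is in `[2k/(2k-1), (2k-2)/(2k-3))`. -/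
theorem exists_window (k : ℕ) (hk : 2 ≤ k) : ∃ n, 2 ≤ n ∧ k.Coprime n ∧
    2 * k * n + sg n ≤ 2 * k * sg n ∧ (2 * k - 2) * sg n < (2 * k - 2) * n + sg n := by
  classical
  set N := 2 * k ^ 2 with hN
  have hex := exists_big N k (by omega)
  set m := Nat.find hex with hm
  have hspec : 2 * k * Nn N m + Ss N m ≤ 2 * k * Ss N m := Nat.find_spec hex
  have hmN : N < m := by
    by_contra hle
    push Not at hle
    have h1 : F N m = ∅ := F_small hle
    unfold Nn Ss at hspec
    rw [h1] at hspec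
    simp at hspec
  obtain ⟨m', hm'⟩ : ∃ m', m = m' + 1 := ⟨m - 1, by omega⟩
  have hmin : ¬ (2 * k * Nn N m' + Ss N m' ≤ 2 * k * Ss N m') := Nat.find_min hex (by omega)
  have hprime : (m' + 1).Prime := by
    by_contra hnp
    have h1 := F_succ N m' (by omega)
    rw [if_neg hnp] at h1
    rw [hm'] at hspec
    unfold Nn Ss at hspec
    rw [h1] at hspec
    exact hmin hspec
  have h1 := F_succ N m' (by omega)
  rw [if_pos hprime] at h1
  have hnotin : m' + 1 ∉ F N m' := by
    unfold F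
    simp
  have hNn : Nn N m = (m' + 1) * Nn N m' := by
    rw [hm']
    unfold Nn
    rw [h1, Finset.prod_insert hnotin]
  have hSs : Ss N m = (m' + 2) * Ss N m' := by
    rw [hm']
    unfold Ss
    rw [h1, Finset.prod_insert hnotin]
  refine ⟨Nn N m, ?_, ?_, ?_, ?_⟩
  · have h2 : m' + 1 ≤ Nn N m := by
      rw [hNn]
      exact Nat.le_mul_of_pos_right _ (Nn_pos N m')
    have h3 : 8 ≤ 2 * k ^ 2 := by nlinarith
    omega
  · unfold Nn
    apply Nat.Coprime.prod_right
    intro p hp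
    have h2 := F_gt hp
    have h3 := F_prime hp
    rw [Nat.coprime_comm, Nat.Prime.coprime_iff_not_dvd h3]
    intro hdvd
    have h4 := Nat.le_of_dvd (by omega) hdvd
    have h5 : k ≤ 2 * k ^ 2 := by nlinarith
    omega
  · rw [sg_Nn]
    exact hspec
  · rw [sg_Nn, hNn, hSs]
    push Not at hmin
    -- (2k-1) S' < 2k N', want (2k-3) S' (m'+2) < (2k-2) N' (m'+1)
    obtain ⟨j, rfl⟩ := Nat.exists_eq_add_of_le hk
    set S := Ss N m' with hSdef
    set A := Nn N m' with hAdef
    have hA : 0 < A := Nn_pos N m'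
    have e : 2 * (2 + j) - 2 = 2 + 2 * j := by omega
    rw [e]
    -- translate to integers
    have hm1 : 2 * (2 + j) ^ 2 ≤ m' := by omega
    have hmin' : (3 + 2 * (j : ℤ)) * S < 2 * (2 + j) * A := by
      have : ((2 * (2 + j) * S : ℕ) : ℤ) < ((2 * (2 + j) * A + S : ℕ) : ℤ) := by exact_mod_cast hmin
      push_cast at this
      linarith
    have goal' : (2 + 2 * (j : ℤ)) * ((m' + 2) * S) < (2 + 2 * j) * ((m' + 1) * A) + (m' + 2) * S := by
      have hm2 : 2 * (2 + (j : ℤ)) ^ 2 ≤ m' := by exact_mod_cast hm1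
      have hj : (0 : ℤ) ≤ j := by positivity
      have hA' : (0 : ℤ) < A := by exact_mod_cast hA
      have hS' : (0 : ℤ) ≤ S := by positivity
      -- (1+2j)(m'+2) S < (2+2j)(m'+1) A
      have h3 : (3 + 2 * (j : ℤ)) * ((1 + 2 * j) * (m' + 2) * S)
          ≤ (1 + 2 * j) * (m' + 2) * (2 * (2 + j) * A - 1) := by
        have : (1 + 2 * (j : ℤ)) * (m' + 2) * ((3 + 2 * (j : ℤ)) * S)
            ≤ (1 + 2 * j) * (m' + 2) * (2 * (2 + j) * A - 1) :=
          mul_le_mul_of_nonneg_left (by omega) (by positivity)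
        linarith
      have h4 : (1 + 2 * (j : ℤ)) * (m' + 2) * (2 * (2 + j) * A)
          ≤ (3 + 2 * j) * ((2 + 2 * j) * (m' + 1) * A) := by
        have h5 : (1 + 2 * (j : ℤ)) * (m' + 2) * (2 * (2 + j))
            ≤ (3 + 2 * j) * ((2 + 2 * j) * (m' + 1)) := by nlinarith
        have := mul_le_mul_of_nonneg_right h5 hA'.le
        linarith
      have h6 : 0 < (1 + 2 * (j : ℤ)) * (m' + 2) := by positivity
      have h7 : (3 + 2 * (j : ℤ)) * ((1 + 2 * j) * (m' + 2) * S)
          < (3 + 2 * j) * ((2 + 2 * j) * (m' + 1) * A) := by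
        have e2 : (1 + 2 * (j : ℤ)) * (m' + 2) * (2 * (2 + j) * A - 1)
            = (1 + 2 * (j : ℤ)) * (m' + 2) * (2 * (2 + j) * A) - (1 + 2 * (j : ℤ)) * (m' + 2) := by
          ring
        linarith
      have h8 : (1 + 2 * (j : ℤ)) * (m' + 2) * S < (2 + 2 * j) * (m' + 1) * A :=
        lt_of_mul_lt_mul_left h7 (by positivity)
      linarith
    exact_mod_cast goal'

end H530AP
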